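import Pool.Agent.Q282.AZ.Box

/-!
# Independence of the reductions: the product of the exceptional primes
-/

set_option autoImplicit false
set_option linter.unusedSectionVars false

namespace Q282UW

open Finset MvPolynomial
open Q282AZ (BoxZ count Mon dec dec_coeff)

lemma box_finite {M : ℕ} {S : Type} [Fintype S] (N : ℕ) (a : ℤ) (L : ℕ) : (BoxZ M S N a L).Finite := by
  classical
  refine ((Fintype.piFinset fun _ : S × Mon M N => Ico a (a + L)).finite_toSet.image (dec N)).subset ?_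
  intro c hc
  have h3 := dec_coeff N c fun s => (hc s).1
  refine ⟨fun k => coeff k.2.1 (c k.1), ?_, h3⟩
  rw [mem_coe, Fintype.mem_piFinset]
  intro k
  rw [mem_Ico]
  exact (hc k.1).2 k.2.1 k.2.2

lemma prod_mono {P P' : Finset Nat.Primes} (h : P ⊆ P') : ∏ p ∈ P, ((p : ℕ) : ℝ) ≤ ∏ p ∈ P', ((p : ℕ) : ℝ) := by
  classical
  rw [← prod_sdiff h]
  refine le_mul_of_one_le_left (prod_nonneg fun p _ => Nat.cast_nonneg _) (Finset.one_le_prod fun p _ => ?_)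
  exact_mod_cast p.2.one_lt.le

open Classical in
/-- **The product of the exceptional primes is small for all the properties at once.** -/
theorem combine (M : ℕ) (S : Type) [Fintype S] (P : Finset Nat.Primes) (θ : ℝ) (hθ : 0 ≤ θ) (C : Nat.Primes → ℝ) (hC : ∀ p, 1 ≤ C p)
    (N : ℕ) (T : Type) [Fintype T] (Bad : T → (p : Nat.Primes) → (S → MvPolynomial (Fin M) (ZMod p)) → Prop)
    (hB : ∀ u, ∀ p ∈ P, (Set.ncard {c : S → MvPolynomial (Fin M) (ZMod p) | (∀ s, (c s).totalDegree ≤ N) ∧ Bad u p c} : ℝ) *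
      ((p : ℕ) : ℝ) ^ θ ≤ C p * Set.ncard {c : S → MvPolynomial (Fin M) (ZMod p) | ∀ s, (c s).totalDegree ≤ N})
    (a : ℤ) (L : ℕ) (hL : ∏ p ∈ P, (p : ℕ) ∣ L) (Q : ℝ) (hQ : 1 ≤ Q) :
    (Set.ncard {c ∈ BoxZ M S N a L | ∃ u, Q ≤ ∏ p ∈ P.filter (fun p => Bad u p fun s => map (Int.castRingHom (ZMod p)) (c s)),
      ((p : ℕ) : ℝ)} : ℝ) * Q ^ θ ≤ 2 ^ P.card * (∏ p ∈ P, C p) * Fintype.card T * Set.ncard (BoxZ M S N a L) := by
  obtain ⟨X, hX⟩ : ∃ X : T × Finset Nat.Primes → Set (S → MvPolynomial (Fin M) ℤ), X = fun z => {c ∈ BoxZ M S N a L | ∀ p ∈ z.2,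
    Bad z.1 p fun s => map (Int.castRingHom (ZMod p)) (c s)} := ⟨_, rfl⟩
  obtain ⟨I, hI⟩ : ∃ I : Finset (T × Finset Nat.Primes), I = (univ : Finset T) ×ˢ (P.powerset.filter fun P' : Finset Nat.Primes => Q ≤ ∏ p ∈ P', ((p : ℕ) : ℝ)) := ⟨_, rfl⟩
  have hQ0 : 0 < Q := by linarith
  have hQθ : 0 < Q ^ θ := Real.rpow_pos_of_pos hQ0 _
  have hC0 : ∀ p, 0 ≤ C p := fun p => by linarith [hC p]
  have hone : ∀ z ∈ I, ((X z).ncard : ℝ) ≤ (∏ p ∈ P, C p) / Q ^ θ * Set.ncard (BoxZ M S N a L) := by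
    rintro ⟨u, P'⟩ hz
    rw [hI, mem_product, mem_filter, mem_powerset] at hz
    obtain ⟨-, hP', hQP⟩ := hz
    have hL' : ∏ p ∈ P', (p : ℕ) ∣ L := (prod_dvd_prod_of_subset _ _ _ hP').trans hL
    have h1 := count M S P' N a L hL' (Bad u) (fun p => C p / ((p : ℕ) : ℝ) ^ θ) (fun p hp => by
      have h2 := hB u p (hP' hp)
      have hp0 : (0 : ℝ) < ((p : ℕ) : ℝ) ^ θ := Real.rpow_pos_of_pos (by exact_mod_cast p.2.pos) _
      rw [div_mul_eq_mul_div, le_div_iff₀ hp0]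
      exact h2)
    have h2 : ((X (u, P')).ncard : ℝ) ≤ (∏ p ∈ P', (C p / ((p : ℕ) : ℝ) ^ θ)) * Set.ncard (BoxZ M S N a L) := by
      rw [hX]
      exact h1
    refine h2.trans (mul_le_mul_of_nonneg_right ?_ (Nat.cast_nonneg _))
    rw [prod_div_distrib]
    have h3 : ∏ p ∈ P', ((p : ℕ) : ℝ) ^ θ = (∏ p ∈ P', ((p : ℕ) : ℝ)) ^ θ :=
      Real.finsetProd_rpow P' (fun p => ((p : ℕ) : ℝ)) (fun p _ => Nat.cast_nonneg _) θ
    rw [h3]
    have h4 : Q ^ θ ≤ (∏ p ∈ P', ((p : ℕ) : ℝ)) ^ θ := Real.rpow_le_rpow hQ0.le hQP hθ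
    have h5 : ∏ p ∈ P', C p ≤ ∏ p ∈ P, C p := by
      rw [← prod_sdiff hP']
      exact le_mul_of_one_le_left (prod_nonneg fun p _ => hC0 p) (Finset.one_le_prod fun p _ => hC p)
    exact div_le_div₀ (prod_nonneg fun p _ => hC0 p) h5 hQθ h4
  have hsub : {c ∈ BoxZ M S N a L | ∃ u, Q ≤ ∏ p ∈ P.filter (fun p => Bad u p fun s => map (Int.castRingHom (ZMod p)) (c s)),
      ((p : ℕ) : ℝ)} ⊆ ⋃ z ∈ I, X z := by
    rintro c ⟨hc, u, hu⟩
    refine Set.mem_biUnion (x := (u, P.filter (fun p => Bad u p fun s => map (Int.castRingHom (ZMod p)) (c s)))) ?_ ?_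
    · rw [mem_coe, hI, mem_product, mem_filter, mem_powerset]
      exact ⟨mem_univ _, filter_subset _ _, hu⟩
    · rw [hX]
      exact ⟨hc, fun p hp => (mem_filter.1 hp).2⟩
  have hfin : (⋃ z ∈ I, X z).Finite := by
    refine (box_finite (M := M) (S := S) N a L).subset ?_
    intro c hc
    rw [Set.mem_iUnion₂] at hc
    obtain ⟨z, _, hz⟩ := hc
    rw [hX] at hz
    exact hz.1
  have h1 : Set.ncard {c ∈ BoxZ M S N a L | ∃ u, Q ≤ ∏ p ∈ P.filter (fun p => Bad u p fun s => map (Int.castRingHom (ZMod p)) (c s)),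
      ((p : ℕ) : ℝ)} ≤ ∑ z ∈ I, (X z).ncard :=
    (Set.ncard_le_ncard hsub hfin).trans (Finset.set_ncard_biUnion_le I X)
  have h2 : (∑ z ∈ I, (X z).ncard : ℝ) ≤ I.card * ((∏ p ∈ P, C p) / Q ^ θ * Set.ncard (BoxZ M S N a L)) := by
    refine (sum_le_sum hone).trans (le_of_eq ?_)
    rw [sum_const, nsmul_eq_mul]
  have h3 : (I.card : ℝ) ≤ Fintype.card T * 2 ^ P.card := by
    have h4 : I.card ≤ Fintype.card T * 2 ^ P.card := by
      rw [hI, card_product, card_univ, ← card_powerset]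
      exact Nat.mul_le_mul_left _ (card_filter_le _ _)
    exact_mod_cast h4
  have h5 : 0 ≤ ∏ p ∈ P, C p := prod_nonneg fun p _ => hC0 p
  calc _ ≤ (∑ z ∈ I, (X z).ncard : ℝ) * Q ^ θ := mul_le_mul_of_nonneg_right (by exact_mod_cast h1) hQθ.le
    _ ≤ (I.card * ((∏ p ∈ P, C p) / Q ^ θ * Set.ncard (BoxZ M S N a L))) * Q ^ θ := mul_le_mul_of_nonneg_right h2 hQθ.le
    _ ≤ ((Fintype.card T * 2 ^ P.card) * ((∏ p ∈ P, C p) / Q ^ θ * Set.ncard (BoxZ M S N a L))) * Q ^ θ := by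
      refine mul_le_mul_of_nonneg_right (mul_le_mul_of_nonneg_right h3 ?_) hQθ.le
      exact mul_nonneg (div_nonneg h5 hQθ.le) (Nat.cast_nonneg _)
    _ = _ := by
      field_simp

end Q282UW
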