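import Pool.Agent.Q282.UV.Fin
import Pool.Agent.Q282.AZ.Lin
import Pool.Agent.Q282.UW.Cmb

/-!
# Complete intersections through linear subspaces, with products of equations
-/

set_option autoImplicit false
set_option linter.unusedSectionVars false

namespace Q282UW

open Finset MvPolynomial
open scoped LinearAlgebra.Projectivization
open Q282GH (zeros Through)
open Q282GP (av gen fam oc tt vv oser kun coh)
open Q282AE (Gen idl Box at' ev tau Good member bet ncard_box ncard_box' subspaces_count Subspaces Contains pforms pforms_hom norm_sum_pow)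
open Q282UV

/-- **Complete intersections through linear subspaces.** -/
theorem almost_lin' {k : Type} [Field k] [Finite k] {M : ℕ} {A : Type} [Fintype A] {ι : A → Type} [∀ a, Fintype (ι a)]
    (D : ℕ) (hD : 1 ≤ D) (r : ℕ) (hr : 1 ≤ r) (hA : Fintype.card A = r)
    (ν : ℕ) (hν : 1 ≤ ν) (n' : ℕ) {d : A → ℕ} {s m' : ℕ} (hm' : 2 * m' ≤ D)
    (l : Fin s → Fin (D + r - m') → Fin (D + r + 1) → MvPolynomial (Fin M) k)
    {f : (a : A) → ι a → MvPolynomial (Fin (D + r + 1)) (MvPolynomial (Fin M) k)}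
    (hd : ∀ a, s + 2 * ν ≤ d a + 1) (hf : ∀ a, Through (pforms l) (d a) (f a))
    (Δ : MvPolynomial (Σ a, ι a) (MvPolynomial (Fin M) k)) (G : Set (MvPolynomial (Fin M) k)) (ε : ℕ) (hε : 1 ≤ ε) (p : Fin ε → MvPolynomial (Fin M) k)
    (C₃ : ℕ) (C₂ : ℝ) (β b B₂ κ : ℕ) (B₀ : ℝ)
    (Fm : ℕ → Type) [∀ m, Field (Fm m)] [∀ m, Algebra k (Fm m)] [∀ m, Finite (Fm m)] (hF : ∀ m, 1 ≤ m → Module.finrank k (Fm m) = m)
    (hfib : ∀ m, 1 ≤ m → ∀ y : Fin ε → Fm m, Nat.card {x : Fin M → Fm m // On G x ∧ ∀ i, aeval x (p i) = y i} ≤ C₃)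
    (hl : ∀ m, 1 ≤ m → ∀ x : Fin M → Fm m, On G x → map (ev x) Δ ≠ 0 → Subspaces x l)
    (Ps : Set (Multiset ℂ)) (hPs : Ps.Finite)
    (R : Finset ℂ) (hR : ∀ g ∈ R, ‖g‖ = Real.sqrt (Nat.card k) ^ n' * (Nat.card k : ℝ) ^ ε) (δ : ℝ) (hδ₀ : 0 < δ) (hδ₁ : δ ≤ 1) :
    ∃ C : ℝ, 0 ≤ C ∧ ∀ (N : ℕ) (η : (m : ℕ) → (Fin M → Fm m) → ℕ → Multiset ℂ) (_ : Bounded Fm G Δ n' β η)
      (Γ : ℕ → Multiset ℂ) (_ : ∀ j ≤ n', ∀ g ∈ Γ j, ‖g‖ = Real.sqrt (Nat.card k) ^ j * (Nat.card k : ℝ) ^ ε)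
      (_ : ∀ m, 1 ≤ m → ∀ j ≤ n', ‖∑ᶠ x : {x : Fin M → Fm m // On G x ∧ map (ev x) Δ ≠ 0}, (η m x.1 j).sum - ((Γ j).map fun g => g ^ m).sum‖ ≤
        C₂ * ((N : ℝ) + 1) ^ κ * (Real.sqrt (Nat.card (Fm m)) ^ j * ((Nat.card (Fm m) : ℝ) ^ ε / Real.sqrt (Nat.card (Fm m)))))
      (_ : PP (fun _ => 1) D r ν n' (Real.sqrt (Nat.card k)) (fun j i => (if 2 * m' = D then s else 0) ^ i • Γ j) ∈ Ps),
      (Set.ncard {c : (Σ a, ι a) → MvPolynomial (Fin M) k | (∀ s, (c s).totalDegree ≤ N) ∧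
        Exc Fm G (fun _ => 1) D r b ν n' ε ∅ f Δ η (PP (fun _ => 1) D r ν n' (Real.sqrt (Nat.card k))
          (fun j i => (if 2 * m' = D then s else 0) ^ i • Γ j)) R B₂ (B₀ * (N + 1) ^ κ) c} : ℝ) *
        (Nat.card k : ℝ) ^ ((1 - δ) * (ε * N / 2 : ℝ)) ≤
      C * Set.ncard {c : (Σ a, ι a) → MvPolynomial (Fin M) k | ∀ s, (c s).totalDegree ≤ N} := by
  classical
  have : Fintype k := Fintype.ofFinite k
  have : ∀ m, Fintype (Fm m) := fun m => Fintype.ofFinite _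
  obtain ⟨z, hz⟩ : ∃ z : ℕ, z = if 2 * m' = D then s else 0 := ⟨_, rfl⟩
  rw [← hz]
  obtain ⟨c₀, hc₀⟩ : ∃ c₀ : ℝ, c₀ = 3 * s + 2 * s ^ 2 := ⟨_, rfl⟩
  have hc₀0 : 0 ≤ c₀ := by
    rw [hc₀]
    positivity
  have hzs : (z : ℝ) ≤ s := by
    rw [hz]
    split_ifs
    · exact le_rfl
    · push_cast
      exact Nat.cast_nonneg _
  have hs00 : (0 : ℝ) ≤ s := Nat.cast_nonneg _
  -- one point
  have hpt : ∀ m, 1 ≤ m → ∀ x : Fin M → Fm m, On G x → map (ev x) Δ ≠ 0 →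
      |(zeros (ev x) (∅ ∪ Set.range (pforms l)) : ℝ) / Real.sqrt (Nat.card (Fm m)) ^ D - z| ≤ c₀ / Real.sqrt (Nat.card (Fm m)) ∧
      (zeros (ev x) (∅ ∪ Set.range (pforms l)) : ℝ) ≤ c₀ * (Nat.card (Fm m) : ℝ) ^ (D / 2) := by
    intro m hm x hxG hx
    have h1 := subspaces_count (m := m') x l (hl m hm x hxG hx) (by omega)
    rw [← Nat.card_eq_fintype_card] at h1
    obtain ⟨u, hu⟩ : ∃ u : ℝ, u = Real.sqrt (Nat.card (Fm m)) := ⟨_, rfl⟩
    have hp1 : (1 : ℝ) ≤ Nat.card (Fm m) := by exact_mod_cast Nat.card_pos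
    have hu1 : 1 ≤ u := by
      rw [hu]
      exact Real.one_le_sqrt.2 hp1
    have hu0 : 0 < u := by linarith
    have hup : (Nat.card (Fm m) : ℝ) = u ^ 2 := by
      rw [hu, Real.sq_sqrt (by linarith)]
    rw [hup] at h1 ⊢
    rw [Real.sqrt_sq hu0.le]
    obtain ⟨Z, hZ⟩ : ∃ Z : ℝ, Z = (zeros (ev x) (∅ ∪ Set.range (pforms l)) : ℝ) := ⟨_, rfl⟩
    have hZ0 : 0 ≤ Z := by
      rw [hZ]
      exact Nat.cast_nonneg _
    rw [← hZ] at h1 ⊢
    have hum : 0 < (u ^ 2) ^ m' := by positivity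
    have h4 : (u ^ 2) ^ m' / u ^ 2 ≤ (u ^ 2) ^ m' := div_le_self hum.le (by nlinarith)
    have h5 : Z ≤ c₀ * (u ^ 2) ^ m' := by
      have h6 := (abs_le.1 h1).2
      have h7 : (2 * (s : ℝ) + 2 * s ^ 2) * ((u ^ 2) ^ m' / u ^ 2) ≤ (2 * (s : ℝ) + 2 * s ^ 2) * (u ^ 2) ^ m' :=
        mul_le_mul_of_nonneg_left h4 (by positivity)
      rw [hc₀]
      linarith
    refine ⟨?_, h5.trans (mul_le_mul_of_nonneg_left ?_ hc₀0)⟩
    · by_cases hD2 : 2 * m' = D
      · have h2 : z = s := by rw [hz, if_pos hD2]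
        rw [h2]
        have h3 : (u ^ 2) ^ m' = u ^ D := by rw [← pow_mul, hD2]
        rw [h3] at h1
        have huD : 0 < u ^ D := pow_pos hu0 D
        have h4 : Z / u ^ D - s = (Z - s * u ^ D) / u ^ D := by
          field_simp
        rw [h4, abs_div, abs_of_pos huD, div_le_iff₀ huD]
        refine h1.trans ?_
        have h5 : u ^ D / u ^ 2 ≤ u ^ D / u := by
          refine div_le_div_of_nonneg_left huD.le hu0 ?_
          nlinarith
        have h6 : 2 * (s : ℝ) + 2 * s ^ 2 ≤ c₀ := by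
          rw [hc₀]
          linarith
        calc (2 * (s : ℝ) + 2 * s ^ 2) * (u ^ D / u ^ 2) ≤ c₀ * (u ^ D / u) := mul_le_mul h6 h5 (by positivity) hc₀0
          _ = _ := by ring
      · have h2 : z = 0 := by rw [hz, if_neg hD2]
        rw [h2]
        have h3 : (u ^ 2) ^ m' * u ≤ u ^ D := by
          rw [← pow_mul, ← pow_succ]
          exact pow_le_pow_right₀ hu1 (by omega)
        have huD : 0 < u ^ D := pow_pos hu0 D
        rw [Nat.cast_zero, sub_zero, abs_of_nonneg (by positivity), div_le_div_iff₀ huD hu0]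
        calc Z * u ≤ c₀ * (u ^ 2) ^ m' * u := mul_le_mul_of_nonneg_right h5 hu0.le
          _ = c₀ * ((u ^ 2) ^ m' * u) := by ring
          _ ≤ c₀ * u ^ D := mul_le_mul_of_nonneg_left h3 hc₀0
    · rw [← pow_mul, ← pow_mul]
      exact pow_le_pow_right₀ hu1 (by omega)
  -- the constant
  obtain ⟨C₄, hC₄⟩ : ∃ C₄ : ℝ, C₄ = c₀ * ν * (1 + s + c₀) ^ ν := ⟨_, rfl⟩
  have hC₄0 : 0 ≤ C₄ := by
    rw [hC₄]
    positivity
  obtain ⟨C, hC0, hC⟩ := almost D hD r hr hA (fun _ => 1) rfl 0 c₀ ν hν n' (h := pforms l) (e := fun _ => s) (d := d) (f := f)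
    (fun φ => pforms_hom l φ) (fun _ a => hd a) hf ∅ Δ G ε hε p C₃ ((1 + s) ^ ν * |C₂| + C₃ * (C₄ * β)) β b B₂ κ B₀ Fm hF hfib
    (fun m hm x _ _ => by
      have h1 : (zeros (ev x) (∅ : Set (MvPolynomial (Fin (D + r + 1)) (MvPolynomial (Fin M) k))) : ℝ) =
          ∑ j ∈ range (D + r + 1), (Nat.card (Fm m) : ℝ) ^ j := by
        unfold zeros
        have h2 : Nat.card {P : ℙ (Fm m) (Fin (D + r + 1) → Fm m) //
            ∀ G ∈ (∅ : Set (MvPolynomial (Fin (D + r + 1)) (MvPolynomial (Fin M) k))), eval₂ (ev x) P.rep G = 0} =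
            Nat.card (ℙ (Fm m) (Fin (D + r + 1) → Fm m)) :=
          Nat.card_congr (Equiv.subtypeUnivEquiv fun P G hG => absurd hG (Set.notMem_empty _))
        rw [h2, Projectivization.card_of_finrank (Fm m) _ (by rw [Module.finrank_fin_fun])]
        push_cast
        rfl
      rw [h1]
      simp)
    (fun m hm x hxG hx => (hpt m hm x hxG hx).2) Ps hPs R hR δ hδ₀ hδ₁
  refine ⟨C, hC0, fun N η hη Γ hΓn hΓ hP => hC N η hη (fun j i => z ^ i • Γ j)
    (fun j hj i _ g hg => hΓn j hj g (Multiset.mem_of_mem_nsmul hg))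
    (fun m hm j hj i hi => ?_) hP⟩
  · have hN1 : 1 ≤ ((N : ℝ) + 1) ^ κ := one_le_pow₀ (by linarith [(Nat.cast_nonneg N : (0 : ℝ) ≤ N)])
    · obtain ⟨Y₀, hY₀⟩ : ∃ Y₀ : ℝ, Y₀ = ((N : ℝ) + 1) ^ κ := ⟨_, rfl⟩
      rw [← hY₀] at hN1
      have hp1 : (1 : ℝ) ≤ Nat.card (Fm m) := by exact_mod_cast Nat.card_pos
      obtain ⟨u, hu⟩ : ∃ u : ℝ, u = Real.sqrt (Nat.card (Fm m)) := ⟨_, rfl⟩
      have hu1 : 1 ≤ u := by
        rw [hu]
        exact Real.one_le_sqrt.2 hp1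
      have hu0 : 0 < u := by linarith
      obtain ⟨W, hW⟩ : ∃ W : ℝ, W = (Nat.card (Fm m) : ℝ) ^ ε := ⟨_, rfl⟩
      have hW0 : 0 < W := by
        rw [hW]
        positivity
      have h1 := hΓ m hm j hj
      have h2 : ∀ x : {x : Fin M → Fm m // On G x ∧ map (ev x) Δ ≠ 0},
          ‖((((zeros (ev x.1) (∅ ∪ Set.range (pforms l)) : ℝ) / u ^ D : ℝ) : ℂ) ^ i * (η m x.1 j).sum) - (z : ℂ) ^ i * (η m x.1 j).sum‖ ≤
            C₄ / u * (β * u ^ j) := by
        intro x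
        obtain ⟨Y, hY⟩ : ∃ Y : ℝ, Y = (zeros (ev x.1) (∅ ∪ Set.range (pforms l)) : ℝ) / u ^ D := ⟨_, rfl⟩
        have hY0 : 0 ≤ Y := by
          rw [hY]
          positivity
        have h4 := (hpt m hm x.1 x.2.1 x.2.2).1
        rw [← hu, ← hY] at h4
        rw [← hY]
        have hY1 : Y ≤ s + c₀ := by
          have h5 := (abs_le.1 h4).2
          have h6 : c₀ / u ≤ c₀ := div_le_self hc₀0 hu1
          linarith
        rw [← sub_mul, norm_mul]
        have h8 : ‖((Y : ℝ) : ℂ) ^ i - (z : ℂ) ^ i‖ ≤ C₄ / u := by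
          have h9 : ((Y : ℝ) : ℂ) ^ i - (z : ℂ) ^ i = ((Y ^ i - (z : ℝ) ^ i : ℝ) : ℂ) := by push_cast; ring
          rw [h9, Complex.norm_real, Real.norm_eq_abs]
          have h6 := abs_pow_sub_pow_le Y (z : ℝ) i
          have h7 : max |Y| |(z : ℝ)| ^ (i - 1) ≤ (1 + s + c₀) ^ ν := by
            have h8 : max |Y| |(z : ℝ)| ≤ 1 + s + c₀ := by
              rw [abs_of_nonneg hY0, abs_of_nonneg (Nat.cast_nonneg _)]
              exact max_le (by linarith) (by linarith)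
            have h9 : (1 : ℝ) ≤ 1 + s + c₀ := by linarith
            exact (pow_le_pow_left₀ (le_max_of_le_left (abs_nonneg _)) h8 _).trans (pow_le_pow_right₀ h9 (by omega))
          refine h6.trans ?_
          have h9 : (i : ℝ) ≤ ν := by exact_mod_cast hi
          calc |Y - z| * i * max |Y| |(z : ℝ)| ^ (i - 1) ≤ (c₀ / u) * ν * (1 + s + c₀) ^ ν :=
                mul_le_mul (mul_le_mul h4 h9 (Nat.cast_nonneg _) (by positivity)) h7 (by positivity) (by positivity)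
            _ = C₄ / u := by
              rw [hC₄]
              ring
        obtain ⟨hc1, hc2⟩ := hη m hm x.1 x.2.1 x.2.2 j hj
        rw [← hu] at hc2
        exact mul_le_mul h8 (sum_norm (by positivity) hc1 hc2) (norm_nonneg _) (by positivity)
      rw [finsum_eq_sum_of_fintype] at h1 ⊢
      rw [← hu, ← hW, ← hY₀] at h1
      rw [← hu, ← hW, ← hY₀]
      have hG1 : (((univ : Finset {x : Fin M → Fm m // On G x ∧ map (ev x) Δ ≠ 0}).card : ℕ) : ℝ) ≤ C₃ * W := by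
        have h4 := card_on G p C₃ (hfib m hm)
        rw [← Nat.card_eq_fintype_card, ← hW] at h4
        refine le_trans (Nat.cast_le.2 ?_) h4
        rw [card_univ, Fintype.card_subtype]
        exact card_le_card fun x hx => by
          rw [mem_filter] at hx ⊢
          exact ⟨mem_univ _, hx.2.1⟩
      have h3 : ∑ x : {x : Fin M → Fm m // On G x ∧ map (ev x) Δ ≠ 0},
            ((((zeros (ev x.1) (∅ ∪ Set.range (pforms l)) : ℝ) / u ^ D : ℝ) : ℂ) ^ i * (η m x.1 j).sum) - ((z ^ i • Γ j).map fun g => g ^ m).sum =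
          ∑ x : {x : Fin M → Fm m // On G x ∧ map (ev x) Δ ≠ 0},
            (((((zeros (ev x.1) (∅ ∪ Set.range (pforms l)) : ℝ) / u ^ D : ℝ) : ℂ) ^ i * (η m x.1 j).sum) - (z : ℂ) ^ i * (η m x.1 j).sum) +
          (z : ℂ) ^ i * (∑ x : {x : Fin M → Fm m // On G x ∧ map (ev x) Δ ≠ 0}, (η m x.1 j).sum - ((Γ j).map fun g => g ^ m).sum) := by
        rw [sum_sub_distrib, ← mul_sum, map_pow_sum]
        push_cast
        ring
      rw [h3]
      refine (norm_add_le _ _).trans ?_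
      have h4 : ‖∑ x : {x : Fin M → Fm m // On G x ∧ map (ev x) Δ ≠ 0},
            (((((zeros (ev x.1) (∅ ∪ Set.range (pforms l)) : ℝ) / u ^ D : ℝ) : ℂ) ^ i * (η m x.1 j).sum) - (z : ℂ) ^ i * (η m x.1 j).sum)‖ ≤
          C₃ * W * (C₄ / u * (β * u ^ j)) := by
        refine (norm_sum_le _ _).trans ((sum_le_sum fun x _ => h2 x).trans ?_)
        rw [sum_const, nsmul_eq_mul]
        exact mul_le_mul_of_nonneg_right hG1 (by positivity)
      have h5 : ‖(z : ℂ) ^ i * (∑ x : {x : Fin M → Fm m // On G x ∧ map (ev x) Δ ≠ 0}, (η m x.1 j).sum - ((Γ j).map fun g => g ^ m).sum)‖ ≤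
          (1 + s) ^ ν * (|C₂| * Y₀ * (u ^ j * (W / u))) := by
        rw [norm_mul, norm_pow, Complex.norm_natCast]
        refine mul_le_mul ?_ (h1.trans (mul_le_mul_of_nonneg_right (mul_le_mul_of_nonneg_right (le_abs_self _) (by linarith)) (by positivity)))
          (norm_nonneg _) (by positivity)
        have h6 : (1 : ℝ) ≤ 1 + s := by linarith
        exact (pow_le_pow_left₀ (Nat.cast_nonneg _) (by linarith) i).trans (pow_le_pow_right₀ h6 hi)
      refine (add_le_add h4 h5).trans ?_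
      have h6 : C₃ * W * (C₄ / u * (β * u ^ j)) ≤ C₃ * W * (C₄ / u * (β * u ^ j)) * Y₀ := le_mul_of_one_le_right (by positivity) hN1
      refine (add_le_add_left h6 _).trans (le_of_eq ?_)
      ring

end Q282UW
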